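import Pool.Agent.KS6_18.HM.Pos2
import Pool.Agent.KS6_18.HM.Main

/-!
# MP_bfec62_an : Haight's question, the true density version

For a measurable `E ⊆ (0,∞)` of positive measure let `F(E) = ⋃_{r ≥ 1} r E`. Haight asked whether for
almost every `x > 0` all large `n` satisfy `n x ∈ F(E)`.

* (1) For EVERY such `E` this is true in measure (the `x ≤ X` with `n x ∉ F(E)` have measure
  tending to zero as `n → ∞`), and for almost every `x > 0` it is true for all `n` outside a set of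
  natural density zero; also `∑ 1 / p` over the primes `p` with `p x ∈ F(E)` diverges.
* (2) It is not true for all large `n`, and the exceptional sets can be large: for every function
  `ψ → ∞` there are closed sets `E ⊆ [a,∞)` of density one such that for EVERY `x ∉ F(E)`
  (in particular every `x < a`) at least `N / (ψ(N) log N)` primes `p ≤ N` have `p x ∉ F(E)`, for
  infinitely many `N`.
* (3) The answer to Q1 is no.

Proof of (1): near a density point of `E`, for most `x` some of the points `n x / r` is in `E`;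
thus `∑ 1 / p` over the primes with `p x ∈ F(E)` diverges for almost all `x`, and `n x ∈ F(E)` for all
multiples `n` of these primes. Proof of (2): Kronecker's theorem with phases `j / K` prescribed on ALL
the primes of an interval `(M, ρ M]` (`≫ M / log M` by Chebyshev), following the library's proof for
clusters of `K` primes.
-/

set_option autoImplicit false

open MeasureTheory Filter Topology

namespace Pool.Agent.Results.MP_bfec62_an.DensityVersion

/-- `F(E) = ⋃_{r ≥ 1} r E`, the union of the dilates of `E` by all positive integers. -/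
def F (E : Set ℝ) : Set ℝ := ⋃ r : ℕ, ⋃ _ : 1 ≤ r, (fun x : ℝ => (r : ℝ) * x) '' E

theorem result :
    -- (1) every `E` of positive measure
    (∀ E : Set ℝ, MeasurableSet E → E ⊆ Set.Ioi 0 → 0 < volume E →
      (∀ X : ℝ, Tendsto (fun n : ℕ => volume {x : ℝ | 0 < x ∧ x ≤ X ∧ (n : ℝ) * x ∉ F E})
        atTop (𝓝 0)) ∧
      (∀ᵐ x : ℝ, 0 < x →
        Tendsto (fun N : ℕ => (Set.ncard {n : ℕ | 1 ≤ n ∧ n ≤ N ∧ (n : ℝ) * x ∉ F E} : ℝ) / N)
          atTop (𝓝 0)) ∧
      (∀ᵐ x : ℝ, 0 < x → ¬ Summable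
        (Set.indicator {p : ℕ | p.Prime ∧ (p : ℝ) * x ∈ F E} (fun p : ℕ => 1 / (p : ℝ))))) ∧
    -- (2) large exceptional sets
    (∀ ψ : ℕ → ℝ, Tendsto ψ atTop atTop → ∀ a ε : ℝ, 0 < a → 0 < ε →
      ∃ E : Set ℝ, IsClosed E ∧ E ⊆ Set.Ici a ∧
        (∀ X : ℝ, 0 < X → volume (Set.Icc a X \ E) ≤ ENNReal.ofReal (ε * X)) ∧
        Tendsto (fun X : ℝ => volume.real (Set.Icc a X ∩ E) / X) atTop (𝓝 1) ∧
        (∀ x : ℝ, 0 < x → x ∉ F E → ∃ᶠ N : ℕ in atTop,
          (N : ℝ) / (ψ N * Real.log N) ≤ Set.ncard {p : ℕ | p.Prime ∧ p ≤ N ∧ (p : ℝ) * x ∉ F E}) ∧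
        (∀ x : ℝ, 0 < x → x < a → x ∉ F E)) ∧
    -- (3) the answer to Q1
    (∃ E : Set ℝ, MeasurableSet E ∧ E ⊆ Set.Ioi 0 ∧ 0 < volume E ∧
      ¬ ∀ᵐ x : ℝ, 0 < x → ∃ n₀ : ℕ, ∀ n : ℕ, n₀ ≤ n → (n : ℝ) * x ∈ F E) := by
  have hF : ∀ E, F E = Pool.Agent.KS6_18.HM.F E := fun _ => rfl
  have hlow : ∀ (a : ℝ) (E : Set ℝ), 0 < a → E ⊆ Set.Ici a → ∀ x : ℝ, 0 < x → x < a → x ∉ F E := by
    intro a E ha hEa x hx0 hxa hxF
    obtain ⟨r, hr, z, hz, hxz⟩ := (Pool.Agent.KS6_18.HM.mem_F E x).1 hxF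
    have hza : a ≤ z := hEa hz
    have hr1 : (1 : ℝ) ≤ r := by exact_mod_cast hr
    have hzpos : 0 < z := lt_of_lt_of_le ha hza
    nlinarith
  have hpart2 : ∀ ψ : ℕ → ℝ, Tendsto ψ atTop atTop → ∀ a ε : ℝ, 0 < a → 0 < ε →
      ∃ E : Set ℝ, IsClosed E ∧ E ⊆ Set.Ici a ∧
        (∀ X : ℝ, 0 < X → volume (Set.Icc a X \ E) ≤ ENNReal.ofReal (ε * X)) ∧
        Tendsto (fun X : ℝ => volume.real (Set.Icc a X ∩ E) / X) atTop (𝓝 1) ∧
        (∀ x : ℝ, 0 < x → x ∉ F E → ∃ᶠ N : ℕ in atTop,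
          (N : ℝ) / (ψ N * Real.log N) ≤ Set.ncard {p : ℕ | p.Prime ∧ p ≤ N ∧ (p : ℝ) * x ∉ F E}) ∧
        (∀ x : ℝ, 0 < x → x < a → x ∉ F E) := by
    intro ψ hψ a ε ha hε
    obtain ⟨E, h1, h2, h3, h4, h5⟩ := Pool.Agent.KS6_18.HM.main a ε ha hε ψ hψ
    refine ⟨E, h1, h2, h3, h4, ?_, hlow a E ha h2⟩
    intro x hx hxF
    have := h5 x hx (fun s hs hmem => hxF ((Pool.Agent.KS6_18.HM.mem_F E x).2 ⟨s, hs, x / s, hmem, by
      have : (s : ℝ) ≠ 0 := by exact_mod_cast hs.ne'
      field_simp⟩))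
    simpa only [hF, Pool.Agent.KS6_18.HM.mem_F] using this
  refine ⟨?_, hpart2, ?_⟩
  · intro E hE hE0 hEv
    have hae : ∀ᵐ x : ℝ, 0 < x → ¬ Summable
        (Set.indicator {p : ℕ | p.Prime ∧ (p : ℝ) * x ∈ F E} (fun p : ℕ => 1 / (p : ℝ))) := by
      have hnull : volume (⋃ k : ℕ, {x | x ∈ Set.Icc (1 / ((k:ℝ) + 1)) ((k:ℝ) + 2) ∧
          Summable (Set.indicator {p : ℕ | p.Prime ∧ (p:ℝ) * x ∈ F E} (fun p : ℕ => 1 / (p:ℝ)))}) = 0 := by
        rw [measure_iUnion_null_iff]
        intro k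
        apply Pool.Agent.KS6_18.HM.ae_not_summable E hE hE0 hEv _ _ (by positivity)
        have h1 : 1 / ((k:ℝ) + 1) ≤ 1 := by
          rw [div_le_one (by positivity)]
          have : (0:ℝ) ≤ k := Nat.cast_nonneg k
          linarith
        have : (0:ℝ) ≤ k := Nat.cast_nonneg k
        linarith
      have hnull' := measure_eq_zero_iff_ae_notMem.1 hnull
      filter_upwards [hnull'] with x hx hx0 hs
      apply hx
      rw [Set.mem_iUnion]
      obtain ⟨k, hk⟩ := exists_nat_ge (max (1 / x) x)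
      have hk1 : 1 / x ≤ k := (le_max_left _ _).trans hk
      have hk2 : x ≤ k := (le_max_right _ _).trans hk
      refine ⟨k, ⟨?_, by linarith⟩, hs⟩
      rw [div_le_iff₀ hx0] at hk1
      rw [div_le_iff₀ (by positivity)]
      nlinarith
    refine ⟨?_, ?_, hae⟩
    · intro X
      rw [ENNReal.tendsto_nhds_zero]
      intro η hη
      by_cases hηtop : η = ⊤
      · rw [hηtop]; exact Filter.Eventually.of_forall fun _ => le_top
      have hη' : 0 < η.toReal := ENNReal.toReal_pos hη.ne' hηtop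
      obtain ⟨X0, hX0⟩ : ∃ X0, X0 = η.toReal / 2 := ⟨_, rfl⟩
      have hX00 : 0 < X0 := by rw [hX0]; positivity
      obtain ⟨n0, hn0⟩ := Pool.Agent.KS6_18.HM.conv E hE hE0 hEv X0 (max X (2 * X0)) (η.toReal / 2) hX00
        (lt_of_lt_of_le (by linarith) (le_max_right _ _)) (by positivity)
      filter_upwards [eventually_ge_atTop n0] with n hn
      have hsub : {x : ℝ | 0 < x ∧ x ≤ X ∧ (n : ℝ) * x ∉ F E} ⊆ Set.Icc 0 X0 ∪
          {x | x ∈ Set.Icc X0 (max X (2 * X0)) ∧ (n : ℝ) * x ∉ Pool.Agent.KS6_18.HM.F E} := by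
        rintro x ⟨h1, h2, h3⟩
        rcases le_total x X0 with h | h
        · left; exact ⟨h1.le, h⟩
        · right; exact ⟨⟨h, h2.trans (le_max_left _ _)⟩, h3⟩
      calc volume {x : ℝ | 0 < x ∧ x ≤ X ∧ (n : ℝ) * x ∉ F E}
          ≤ volume (Set.Icc 0 X0) + volume {x | x ∈ Set.Icc X0 (max X (2 * X0)) ∧
              (n : ℝ) * x ∉ Pool.Agent.KS6_18.HM.F E} := (measure_mono hsub).trans (measure_union_le _ _)
        _ ≤ ENNReal.ofReal (η.toReal / 2) + ENNReal.ofReal (η.toReal / 2) := by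
            apply add_le_add _ (hn0 n hn)
            rw [Real.volume_Icc, sub_zero, hX0]
        _ = η := by
            rw [← ENNReal.ofReal_add (by positivity) (by positivity), add_halves,
              ENNReal.ofReal_toReal hηtop]
    · filter_upwards [hae] with x hx hx0
      exact Pool.Agent.KS6_18.HM.density_zero E x (hx hx0)
  · -- (3)
    obtain ⟨E, h1, h2, h3, h4, h5, h6⟩ := hpart2 (fun N => Real.log N)
      (Real.tendsto_log_atTop.comp tendsto_natCast_atTop_atTop) 1 (1 / 4) one_pos (by norm_num)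
    refine ⟨E, h1.measurableSet, fun x hx => lt_of_lt_of_le (one_pos : (0:ℝ) < 1) (h2 hx), ?_, ?_⟩
    · by_contra hcon
      have h0 : volume E = 0 := by simpa using hcon
      have h7 := h3 2 (by norm_num)
      have h8 : volume (Set.Icc (1:ℝ) 2) ≤ volume (Set.Icc (1:ℝ) 2 \ E) + volume E := by
        refine (measure_mono ?_).trans (measure_union_le _ _)
        intro x hx
        by_cases hxE : x ∈ E
        · right; exact hxE
        · left; exact ⟨hx, hxE⟩
      rw [h0, add_zero] at h8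
      have h9 := h8.trans h7
      rw [Real.volume_Icc, ENNReal.ofReal_le_ofReal_iff (by norm_num)] at h9
      norm_num at h9
    · intro hae
      have h7 : ∀ x : ℝ, 0 < x → x < 1 → ¬ ∃ n₀ : ℕ, ∀ n : ℕ, n₀ ≤ n → (n : ℝ) * x ∈ F E := by
        rintro x hx0 hx1 ⟨n0, hn0⟩
        have h8 := h5 x hx0 (h6 x hx0 hx1)
        -- `N / (log N) ^ 2` is eventually larger than `n0`
        have h9 : ∀ᶠ y : ℝ in atTop, Real.log y ^ 2 ≤ 1 / ((n0:ℝ) + 1) * y := by
          have e1 := (Real.isLittleO_pow_log_id_atTop (n := 2)).bound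
            (show (0:ℝ) < 1 / ((n0:ℝ) + 1) by positivity)
          filter_upwards [e1, eventually_ge_atTop 0] with y hy hy0
          rw [Real.norm_eq_abs, Real.norm_eq_abs, id, abs_of_nonneg hy0] at hy
          exact (le_abs_self _).trans hy
        have h10 := (tendsto_natCast_atTop_atTop (R := ℝ)).eventually (h9.and (eventually_ge_atTop 3))
        obtain ⟨N, hN1, hN2, hN3⟩ := (h8.and_eventually h10).exists
        have hlogN : 0 < Real.log N := Real.log_pos (by linarith)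
        have h11 : (Set.ncard {p : ℕ | p.Prime ∧ p ≤ N ∧ (p : ℝ) * x ∉ F E} : ℝ) ≤ n0 := by
          have e1 : {p : ℕ | p.Prime ∧ p ≤ N ∧ (p : ℝ) * x ∉ F E} ⊆ (Finset.range n0 : Set ℕ) := by
            rintro p ⟨_, _, hp⟩
            rw [Finset.mem_coe, Finset.mem_range]
            by_contra hcon
            exact hp (hn0 p (not_lt.1 hcon))
          have e2 := Set.ncard_le_ncard e1 (Finset.finite_toSet _)
          rw [Set.ncard_coe_finset, Finset.card_range] at e2
          exact_mod_cast e2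
        have h12 : (n0:ℝ) + 1 ≤ (N : ℝ) / (Real.log N * Real.log N) := by
          rw [le_div_iff₀ (by positivity)]
          have e1 : ((n0:ℝ) + 1) * (Real.log N ^ 2) ≤ ((n0:ℝ) + 1) * (1 / ((n0:ℝ) + 1) * N) :=
            mul_le_mul_of_nonneg_left hN2 (by positivity)
          have e2 : ((n0:ℝ) + 1) * (1 / ((n0:ℝ) + 1) * N) = N := by field_simp
          rw [e2] at e1
          linarith [sq (Real.log (N:ℝ))]
        linarith
      have h8 : Set.Ioo (0:ℝ) 1 ⊆ {x : ℝ | ¬ (0 < x → ∃ n₀ : ℕ, ∀ n : ℕ, n₀ ≤ n → (n : ℝ) * x ∈ F E)} := by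
        intro x hx hcon
        exact h7 x hx.1 hx.2 (hcon hx.1)
      have h9 : volume (Set.Ioo (0:ℝ) 1) = 0 := measure_mono_null h8 hae
      rw [Real.volume_Ioo] at h9
      norm_num at h9

end Pool.Agent.Results.MP_bfec62_an.DensityVersion
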